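import Mathlib

namespace Pool.Agent.Results.MP_b0ae03_co.Spokes

variable {V : Type}

/-- A position is the set A of arrows drawn so far, (x, y) meaning an arrow from x to y.
A sink: every edge at x is marked and points to x. -/
def Sink (G : SimpleGraph V) (A : Set (V × V)) (x : V) : Prop := ∀ y, G.Adj x y → (y, x) ∈ A

/-- A source: every edge at x is marked and points away from x. -/
def Source (G : SimpleGraph V) (A : Set (V × V)) (x : V) : Prop := ∀ y, G.Adj x y → (x, y) ∈ A

/-- Marking the unmarked edge uv from u to v creates no sink and no source. -/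
def Legal (G : SimpleGraph V) (A : Set (V × V)) (u v : V) : Prop :=
  G.Adj u v ∧ (u, v) ∉ A ∧ (v, u) ∉ A ∧ ∀ x,
    (Sink G (insert (u, v) A) x → Sink G A x) ∧ (Source G (insert (u, v) A) x → Source G A x)

/-- Some cell, given by the cyclic list of vertices on its boundary, is a cycle cell. -/
def HasCycleCell (cells : List (List V)) (A : Set (V × V)) : Prop :=
  ∃ c ∈ cells, (∀ p ∈ c.zip (c.rotate 1), p ∈ A) ∨ (∀ p ∈ c.zip (c.rotate 1), p.swap ∈ A)

/-- Wins G cells true A: the player to move has a winning strategy from A.
Wins G cells false A: the other player has one. -/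
inductive Wins (G : SimpleGraph V) (cells : List (List V)) : Bool → Set (V × V) → Prop
  | close (A u v) : Legal G A u v → HasCycleCell cells (insert (u, v) A) → Wins G cells true A
  | move (A u v) : Legal G A u v → Wins G cells false (insert (u, v) A) → Wins G cells true A
  | wait (A) : (∀ u v, Legal G A u v → ¬ HasCycleCell cells (insert (u, v) A)) →
      (∀ u v, Legal G A u v → Wins G cells true (insert (u, v) A)) → Wins G cells false A

/-- The hexagon 0 1 2 3 4 5 with a centre 6 joined to 0, 2 and 4. -/
def board : SimpleGraph (Fin 7) :=
  SimpleGraph.fromRel fun a b =>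
    (a, b) ∈ [(0, 1), (1, 2), (2, 3), (3, 4), (4, 5), (5, 0), (6, 0), (6, 2), (6, 4)]

/-- Its three bounded regions. -/
def cells : List (List (Fin 7)) := [[6, 0, 1, 2], [6, 2, 3, 4], [6, 4, 5, 0]]

instance : DecidableRel board.Adj := fun a b => by
  unfold board
  rw [SimpleGraph.fromRel_adj]
  infer_instance

def nb (a : Fin 7) : List (Fin 7) :=
  [[1, 5, 6], [0, 2], [1, 3, 6], [2, 4], [3, 5, 6], [0, 4], [0, 2, 4]].getD a.1 []

lemma adj_iff : ∀ a b : Fin 7, board.Adj a b ↔ b ∈ nb a := by decide

def has (s : ℕ) (a b : Fin 7) : Bool := s.testBit (7 * a.1 + b.1)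

def dec (s : ℕ) : Set (Fin 7 × Fin 7) := {p | has s p.1 p.2 = true}

def add (s : ℕ) (u v : Fin 7) : ℕ := s ||| 2 ^ (7 * u.1 + v.1)

lemma dec_add (s : ℕ) (u v : Fin 7) : dec (add s u v) = insert (u, v) (dec s) := by
  ext ⟨a, b⟩
  simp only [dec, has, add, Set.mem_ofPred_eq, Nat.testBit_or, Nat.testBit_two_pow,
    Bool.or_eq_true, decide_eq_true_eq, Set.mem_insert_iff, Prod.mk.injEq, Fin.ext_iff]
  have := a.2
  have := b.2
  have := u.2
  have := v.2
  constructor
  · rintro (h | h)
    · exact Or.inr h
    · left; omega
  · rintro (h | h)
    · right; omega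
    · exact Or.inl h

def legalB (s : ℕ) (u v : Fin 7) : Bool :=
  !has s u v && !has s v u && !(nb u).all (fun y => has (add s u v) u y) &&
    !(nb v).all (fun y => has (add s u v) y v)

def cycB (s : ℕ) : Bool :=
  cells.any fun c => (c.zip (c.rotate 1)).all (fun p => has s p.1 p.2) ||
    (c.zip (c.rotate 1)).all (fun p => has s p.2 p.1)

lemma cyc_iff (s : ℕ) : HasCycleCell cells (dec s) ↔ cycB s = true := by
  simp only [HasCycleCell, cycB, List.any_eq_true, Bool.or_eq_true, List.all_eq_true]
  rfl

lemma legal_iff (s : ℕ) (u v : Fin 7) (h : board.Adj u v) :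
    Legal board (dec s) u v ↔ legalB s u v = true := by
  have e1 : Source board (insert (u, v) (dec s)) u ↔
      (nb u).all (fun y => has (add s u v) u y) = true := by
    rw [← dec_add, List.all_eq_true]
    simp only [Source, adj_iff]
    rfl
  have e2 : Sink board (insert (u, v) (dec s)) v ↔
      (nb v).all (fun y => has (add s u v) y v) = true := by
    rw [← dec_add, List.all_eq_true]
    simp only [Sink, adj_iff]
    rfl
  simp only [legalB, Bool.and_eq_true, Bool.not_eq_true', ← Bool.not_eq_true, ← e1, ← e2]
  constructor
  · rintro ⟨-, h1, h2, h3⟩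
    exact ⟨⟨⟨h1, h2⟩, fun k => h1 ((h3 u).2 k v h)⟩, fun k => h1 ((h3 v).1 k u h.symm)⟩
  · rintro ⟨⟨⟨h1, h2⟩, h3⟩, h4⟩
    refine ⟨h, h1, h2, fun x => ⟨fun k y hy => ?_, fun k y hy => ?_⟩⟩
    · rcases k y hy with e | e
      · rw [Prod.mk.injEq] at e
        exact absurd (e.2 ▸ k) h4
      · exact e
    · rcases k y hy with e | e
      · rw [Prod.mk.injEq] at e
        exact absurd (e.1 ▸ k) h3
      · exact e

def arcs : List (Fin 7 × Fin 7) :=
  [(0, 1), (0, 5), (0, 6), (1, 0), (1, 2), (2, 1), (2, 3), (2, 6), (3, 2), (3, 4), (4, 3), (4,
   5), (4, 6), (5, 0), (5, 4), (6, 0), (6, 2), (6, 4)]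

lemma mem_arcs : ∀ a b : Fin 7, board.Adj a b ↔ (a, b) ∈ arcs := by decide

def P : List ℕ :=
  [0, 34, 32832, 163840, 163936, 1048578, 1179682, 8389120, 8389154, 9437250, 9437728,
   34603042, 2148532290, 8591016000, 8599371778, 8599372288, 8599372354, 8599404736,
   8624570560, 10737418240, 10738467394, 10738499776, 10745807360, 10745807426, 17179869216,
   17180000352, 17180918304, 17181048864, 17188257826, 17213423776, 17213456416, 17213456448,
   17214505120, 17214603298, 17214603424, 17214603808, 19327352866, 19328401410, 19335741986,
   19336790050, 19336790560, 25769836608, 34359738496, 34359869632, 34359902336, 34368127168,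
   34368159808, 34369175554, 34369176064, 34369176130, 34369208512, 34393292992, 34394374336,
   34394472640, 36507222208, 36507254848, 36508271170, 36508303552, 45097156736, 45098238080,
   53695480000, 53695512640, 53696528386, 53696528896, 60129673408, 60129706048, 60129706112,
   60137963584, 60138979330, 60138979840, 60163096768, 60163129408, 549755977792, 549765251584,
   549765251650, 549765251680, 549789368320, 549789368354, 549789532160, 549789532256,
   549790548002, 551904346690, 566935814368, 566935814752, 566935847008, 566936731650,
   566969237506, 566969237632, 566969237728, 566969238016, 566969238082, 566969270272,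
   566969270368, 566970318976, 566970417154, 566970417664, 569092603906, 569092604416,
   4398046511616, 4398046642210, 4398046642720, 4398054899746, 4398080065570, 4398080066080,
   4400193994786, 4406644834816, 4408784977920, 4408785010816, 4415226544128, 4415234769408,
   4423816478848, 4432414638592, 4443144749056, 4443152056832, 4451741991424, 4458176217088,
   4458184442368, 4947836043392, 4947836928000, 4947836960896, 4947837059200, 17592186044544,
   17592186175648, 17592186208288, 17600776142848, 17602923462720, 17602923463234,
   17602931851330, 17609365913634, 17611513397794, 17611521785890, 17626545946624,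
   17626554171520, 17628693266560, 17637291589760, 17643725652096, 17645881524352,
   17652323975296, 18141941989504, 18141942022144, 18141975412800, 18141975413282,
   18141975413314, 18141975413344, 21990232556064, 21990232686720, 21990232687138,
   21990232719520, 21990266110080, 21990266110498, 21990266142880, 21992380039714,
   21992388427810, 21998822654080, 21998856077440, 22033182392320, 22539988369920,
   22539988500994, 22539988533376, 22540021924354, 22540021956736, 22542135853570,
   70368744341568, 70368745226274, 70368752566272, 70368752566816, 70368752566848,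
   70368777896032, 70368778911778, 70377342500992, 70377342533632, 70379481595906,
   70379481596032, 70379481596416, 70379481628672, 70403104964736, 70403137634432,
   70403138551936, 70403138650240, 70918500155488, 70918501171234, 70918508380672,
   70918508380706, 70918508380738, 70918508380768, 74766799077378, 74766824374306,
   74766824374816, 74768938172928, 74775389044864, 74777528139904, 74801158815744,
   74809748750338, 74809748750848, 74809748783104, 74811887845378, 74811887845888,
   75316546503168, 75316546634272, 75316554891298, 75316554891808, 75318693986338,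
   75318693986848, 87960963776640, 87960963907744, 87960963940384, 87969520156800,
   87969528545280, 87969553842304, 87969553874944, 87971667640834, 87971676028930,
   87971676029056, 87971676061696, 87995323646080, 87995323678720, 87997445832832,
   88510686167200, 88510686199840]

def good (s : ℕ) : Bool :=
  arcs.all fun m => !legalB s m.1 m.2 || (!cycB (add s m.1 m.2) &&
    arcs.any fun r => legalB (add s m.1 m.2) r.1 r.2 &&
      (P.elem (add (add s m.1 m.2) r.1 r.2) || cycB (add (add s m.1 m.2) r.1 r.2)))

lemma all_good : P.all good = true := by decide +kernel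

lemma small : P.all (fun s => decide (s < 2 ^ 49)) = true := by decide +kernel

lemma lt_add (s : ℕ) (u v : Fin 7) (h : has s u v = false) : s < add s u v := by
  apply lt_of_le_of_ne Nat.left_le_or
  intro e
  have : has (add s u v) u v = true := by simp [has, add]
  unfold add at this
  rw [← e, h] at this
  exact absurd this (by simp)

lemma main : ∀ k s, s ∈ P → 2 ^ 49 - s = k → Wins board cells false (dec s) := by
  intro k
  induction k using Nat.strong_induction_on with
  | _ k ih =>
    intro s hs hk
    have g := List.all_eq_true.1 all_good s hs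
    have step : ∀ u v, Legal board (dec s) u v → cycB (add s u v) = false ∧
        ∃ r ∈ arcs, legalB (add s u v) r.1 r.2 = true ∧
          (add (add s u v) r.1 r.2 ∈ P ∨ cycB (add (add s u v) r.1 r.2) = true) := by
      intro u v hl
      have h1 := (legal_iff s u v hl.1).1 hl
      have h2 := List.all_eq_true.1 g (u, v) ((mem_arcs u v).1 hl.1)
      simpa [h1] using h2
    apply Wins.wait
    · intro u v hl
      rw [← dec_add, cyc_iff, (step u v hl).1]
      simp
    · intro u v hl
      obtain ⟨r, hr, h1, h2⟩ := (step u v hl).2
      have hl2 := (legal_iff _ r.1 r.2 ((mem_arcs _ _).2 hr)).2 h1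
      rw [← dec_add]
      rcases h2 with h2 | h2
      · apply Wins.move _ r.1 r.2 hl2
        rw [← dec_add]
        have a1 := lt_add s u v (by simpa [dec] using hl.2.1)
        have a2 := lt_add (add s u v) r.1 r.2 (by simpa [dec] using hl2.2.1)
        have a3 : add (add s u v) r.1 r.2 < 2 ^ 49 := by
          simpa using List.all_eq_true.1 small _ h2
        exact ih _ (by omega) _ h2 rfl
      · apply Wins.close _ r.1 r.2 hl2
        rw [← dec_add, cyc_iff]
        exact h2

theorem result : board.CliqueFree 3 ∧ board.edgeSet.ncard = 9 ∧ Wins board cells false ∅ := by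
  refine ⟨?_, ?_, ?_⟩
  · intro t ht
    rw [SimpleGraph.is3Clique_iff] at ht
    obtain ⟨a, b, c, h1, h2, h3, -⟩ := ht
    revert a b c
    decide
  · rw [← SimpleGraph.coe_edgeFinset, Set.ncard_coe_finset]
    decide +kernel
  · have := main _ 0 (by decide) rfl
    have e : dec 0 = ∅ := by
      ext p
      simp [dec, has]
    rwa [e] at this

end Pool.Agent.Results.MP_b0ae03_co.Spokes
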